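import Pool.Agent.Trp.Defs

/-!
# Bumps of the past arm
-/

set_option autoImplicit false

namespace Pool.Agent.Ctc

open Finset Filter Topology Pool.Agent.Bub4 Pool.Agent.SawM2 Pool.Agent.SawDiff Pool.Agent.Taw
open Pool.Agent.Trp
open Pool.Agent.SawNice (pa fu)

variable {S : Type} [Fintype S] {d : ℕ} {Λ K : ℝ} {ρ : List S → ℝ}

private theorem Bump_cons (Y : Sys S (Zk d)) (x a : List S) (l : ℕ) :
    pa Y (x ++ a) (x.length + l) = pa Y a l := by
  rw [Pool.Agent.SawNice.pa_append_right Y (Nat.le_add_right _ _), Nat.add_sub_cancel_left]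

/-- the places of the word after the bump -/
private theorem Bump_places (Y : Sys S (Zk d)) (x y : List S) (f s : S) :
    (∀ l ≤ x.length, pa Y (x ++ f :: s :: Y.neg f :: y) l = pa Y (x ++ s :: y) l) ∧
    pa Y (x ++ f :: s :: Y.neg f :: y) (x.length + 1) = pa Y (x ++ s :: y) x.length + Y.vec f ∧
    pa Y (x ++ f :: s :: Y.neg f :: y) (x.length + 2) =
      pa Y (x ++ s :: y) (x.length + 1) + Y.vec f ∧
    ∀ l, x.length + 1 ≤ l → pa Y (x ++ f :: s :: Y.neg f :: y) (l + 2) = pa Y (x ++ s :: y) l := by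
  refine ⟨?_, ?_, ?_, ?_⟩
  · intro l hl
    rw [Pool.Agent.SawNice.pa_append_left Y hl, Pool.Agent.SawNice.pa_append_left Y hl]
    simp only [Sys.sm_cons, Y.vec_neg]
    abel
  · rw [Bump_cons]
    have e : pa Y (x ++ s :: y) x.length = pa Y (s :: y) 0 := by
      have := Bump_cons Y x (s :: y) 0
      rwa [Nat.add_zero] at this
    rw [e]
    simp only [pa, List.drop_succ_cons, List.drop_zero, Sys.sm_cons, Y.vec_neg]
    abel
  · rw [Bump_cons, Bump_cons]
    simp only [pa, List.drop_succ_cons, List.drop_zero, Sys.sm_cons, Y.vec_neg]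
    abel
  · intro l hl
    obtain ⟨j, rfl⟩ := Nat.exists_eq_add_of_le hl
    rw [show x.length + 1 + j + 2 = x.length + (j + 3) by ring,
      show x.length + 1 + j = x.length + (j + 1) by ring, Bump_cons, Bump_cons]
    simp only [pa, List.drop_succ_cons]

/-- the word after the bump meets `v` at the place `i + 1` or `i + 2`, and nowhere else -/
private def BumpA (Y : Sys S (Zk d)) (w v : List S) (i : ℕ) : Prop :=
  (Fv Y v (pa Y w (i + 1)) ∨ Fv Y v (pa Y w (i + 2))) ∧
    ∀ l ≤ w.length, Fv Y v (pa Y w l) → l = i + 1 ∨ l = i + 2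

private theorem Bump_after (Y : Sys S (Zk d)) {x y v : List S} {f s : S}
    (h : Y.Saw ((x ++ s :: y) ++ v)) (hB : Bp Y (x ++ s :: y) v x.length f) :
    Y.Saw (x ++ f :: s :: Y.neg f :: y) ∧ BumpA Y (x ++ f :: s :: Y.neg f :: y) v x.length := by
  obtain ⟨hA, hP, hQ, hR⟩ := Bump_places Y x y f s
  obtain ⟨hi, hno, hv⟩ := hB
  set u := x ++ s :: y with hu
  set u' := x ++ f :: s :: Y.neg f :: y with hu'
  have hlen : u'.length = u.length + 2 := by
    rw [hu, hu']
    simp only [List.length_append, List.length_cons]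
    omega
  have hu1 : Y.Saw u := h.fac (List.prefix_append _ _).isInfix
  have hinj : ∀ i j, i ≤ u.length → j ≤ u.length → i ≠ j → pa Y u i ≠ pa Y u j :=
    fun i j hi hj hij e => hij (Pool.Agent.SawNice.saw_pa Y hu1 hi hj e)
  constructor
  · refine Pool.Agent.SawNice.saw_of_pa Y ?_
    intro a b hab hb
    rw [hlen] at hb
    rcases Nat.lt_or_ge x.length a with ha | ha
    · -- a ≥ i + 1
      rcases Nat.lt_or_ge (x.length + 2) a with ha2 | ha2
      · obtain ⟨a', rfl⟩ : ∃ a', a = a' + 2 := ⟨a - 2, by omega⟩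
        obtain ⟨b', rfl⟩ : ∃ b', b = b' + 2 := ⟨b - 2, by omega⟩
        rw [hR a' (by omega), hR b' (by omega)]
        exact hinj _ _ (by omega) (by omega) (by omega)
      · rcases Nat.lt_or_ge (x.length + 2) b with hb2 | hb2
        · obtain ⟨b', rfl⟩ : ∃ b', b = b' + 2 := ⟨b - 2, by omega⟩
          rw [hR b' (by omega)]
          have h1 : a = x.length + 1 ∨ a = x.length + 2 := by omega
          rcases h1 with rfl | rfl
          · rw [hP]
            exact (hno b' (by omega)).1.symm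
          · rw [hQ]
            exact (hno b' (by omega)).2.symm
        · have h1 : a = x.length + 1 := by omega
          have h2 : b = x.length + 2 := by omega
          rw [h1, h2, hP, hQ]
          intro e
          exact hinj _ _ (by omega) (by omega) (by omega) (add_right_cancel e)
    · -- a ≤ i
      rw [hA a ha]
      rcases Nat.lt_or_ge x.length b with hb1 | hb1
      · rcases Nat.lt_or_ge (x.length + 2) b with hb2 | hb2
        · obtain ⟨b', rfl⟩ : ∃ b', b = b' + 2 := ⟨b - 2, by omega⟩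
          rw [hR b' (by omega)]
          exact hinj _ _ (by omega) (by omega) (by omega)
        · have h1 : b = x.length + 1 ∨ b = x.length + 2 := by omega
          rcases h1 with rfl | rfl
          · rw [hP]
            exact (hno a (by omega)).1
          · rw [hQ]
            exact (hno a (by omega)).2
      · rw [hA b hb1]
        exact hinj _ _ (by omega) (by omega) (by omega)
  · refine ⟨?_, ?_⟩
    · rw [hP, hQ]
      exact hv
    · intro l hl hF
      rw [hlen] at hl
      by_contra hcon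
      push Not at hcon
      obtain ⟨j, hj1, hj2, he⟩ := hF
      rcases Nat.lt_or_ge x.length l with h1 | h1
      · obtain ⟨l', rfl⟩ : ∃ l', l = l' + 2 := ⟨l - 2, by omega⟩
        rw [hR l' (by omega)] at he
        exact Pool.Agent.SawNice.saw_arms Y h (by omega) hj1 hj2 he
      · rw [hA l h1] at he
        exact Pool.Agent.SawNice.saw_arms Y h (by omega) hj1 hj2 he

private theorem Bump_count (Y : Sys S (Zk d)) (w v : List S) (n : ℕ) (hn : n + 1 ≤ w.length) :
    ∑ i ∈ range n, ind (BumpA Y w v i) ≤ 2 := by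
  classical
  by_cases h : ∃ l ≤ w.length, Fv Y v (pa Y w l)
  · obtain ⟨l, hl, hF⟩ := h
    have h1 : ∀ i ∈ range n, ind (BumpA Y w v i) ≤ (if i = l - 1 then (1 : ℝ) else 0) +
        (if i = l - 2 then (1 : ℝ) else 0) := by
      intro i _
      by_cases hA : BumpA Y w v i
      · rw [ind_of hA]
        rcases hA.2 l hl hF with e | e
        · rw [if_pos (by omega : i = l - 1)]
          have : (0 : ℝ) ≤ if i = l - 2 then (1 : ℝ) else 0 := by split_ifs <;> norm_num
          linarith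
        · rw [if_pos (by omega : i = l - 2)]
          have : (0 : ℝ) ≤ if i = l - 1 then (1 : ℝ) else 0 := by split_ifs <;> norm_num
          linarith
      · rw [ind_not hA]
        have h2 : (0 : ℝ) ≤ if i = l - 1 then (1 : ℝ) else 0 := by split_ifs <;> norm_num
        have h3 : (0 : ℝ) ≤ if i = l - 2 then (1 : ℝ) else 0 := by split_ifs <;> norm_num
        linarith
    refine (Finset.sum_le_sum h1).trans ?_
    rw [Finset.sum_add_distrib, Finset.sum_ite_eq', Finset.sum_ite_eq']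
    have h2 : (if l - 1 ∈ range n then (1 : ℝ) else 0) ≤ 1 := by split_ifs <;> norm_num
    have h3 : (if l - 2 ∈ range n then (1 : ℝ) else 0) ≤ 1 := by split_ifs <;> norm_num
    linarith
  · push Not at h
    rw [Finset.sum_eq_zero]
    · norm_num
    · intro i hi
      have hi' := Finset.mem_range.mp hi
      refine ind_not fun hA => ?_
      rcases hA.1 with h1 | h1
      · exact h (i + 1) (by omega) h1
      · exact h (i + 2) (by omega) h1

private theorem Bump_pt (Y : Sys S (Zk d)) (x y v : List S) (f s : S) :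
    Y.sv ((x ++ s :: y) ++ v) * ind (Bp Y (x ++ s :: y) v x.length f) ≤
      Y.sv (x ++ f :: s :: Y.neg f :: y) * Y.sv v *
        ind (BumpA Y (x ++ f :: s :: Y.neg f :: y) v x.length) := by
  have hr : 0 ≤ Y.sv (x ++ f :: s :: Y.neg f :: y) * Y.sv v *
      ind (BumpA Y (x ++ f :: s :: Y.neg f :: y) v x.length) :=
    mul_nonneg (mul_nonneg (Y.sv_nonneg _) (Y.sv_nonneg _)) (ind_nonneg _)
  by_cases h : Y.Saw ((x ++ s :: y) ++ v)
  · by_cases hB : Bp Y (x ++ s :: y) v x.length f
    · obtain ⟨h1, h2⟩ := Bump_after Y h hB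
      have hv : Y.Saw v := h.fac (List.suffix_append _ _).isInfix
      rw [Y.sv_of h, ind_of hB, Y.sv_of h1, Y.sv_of hv, ind_of h2]
      norm_num
    · rw [ind_not hB, mul_zero]
      exact hr
  · rw [Y.sv_of_not h, zero_mul]
    exact hr

private theorem Bump_step (Y : Sys S (Zk d)) (v : List S) (i m : ℕ) :
    (Y.E (i + (1 + m)) fun u => ∑ f : S, Y.sv (u ++ v) * ind (Bp Y u v i f)) ≤
      (Y.z ^ 2)⁻¹ * Y.E (i + (3 + m)) fun w => Y.sv w * Y.sv v * ind (BumpA Y w v i) := by
  have hz := Y.z_pos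
  rw [Y.E_add i (1 + m), Y.E_add i (3 + m), ← Y.E_mul_left]
  refine Y.E_mono fun x hx => ?_
  subst hx
  rw [Y.E_add 1 m, Y.E_add 3 m]
  have e1 : ∀ F : List S → ℝ, Y.E 1 F = Y.z * ∑ s, F [s] := fun F => rfl
  have e3 : ∀ F : List S → ℝ, Y.E 3 F = Y.z * ∑ f, Y.z * ∑ s, Y.z * ∑ g, F [f, s, g] :=
    fun F => rfl
  rw [e1, e3]
  set D : S → S → ℝ := fun f s => Y.E m fun y => Y.sv (x ++ f :: s :: Y.neg f :: y) * Y.sv v *
        ind (BumpA Y (x ++ f :: s :: Y.neg f :: y) v x.length) with hD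
  have h1 : ∀ f s, D f s ≤ ∑ g : S, Y.E m fun y => Y.sv (x ++ ([f, s, g] ++ y)) * Y.sv v *
        ind (BumpA Y (x ++ ([f, s, g] ++ y)) v x.length) := by
    intro f s
    exact Finset.single_le_sum (f := fun g : S => Y.E m fun y => Y.sv (x ++ ([f, s, g] ++ y)) * Y.sv v *
        ind (BumpA Y (x ++ ([f, s, g] ++ y)) v x.length)) (fun g _ => Y.E_nonneg' fun y =>
          mul_nonneg (mul_nonneg (Y.sv_nonneg _) (Y.sv_nonneg _)) (ind_nonneg _))
          (Finset.mem_univ (Y.neg f))
  have h2 : (Y.z ^ 2)⁻¹ * (Y.z * ∑ f, Y.z * ∑ s, Y.z * D f s) = Y.z * ∑ s, ∑ f, D f s := by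
    simp only [← Finset.mul_sum]
    rw [Finset.sum_comm]
    field_simp
  refine le_trans ?_ (le_trans h2.ge ?_)
  · refine mul_le_mul_of_nonneg_left (Finset.sum_le_sum fun s _ => ?_) hz.le
    rw [Y.E_fsum_univ]
    refine Finset.sum_le_sum fun f _ => ?_
    exact Y.E_mono fun y _ => Bump_pt Y x y v f s
  · refine mul_le_mul_of_nonneg_left ?_ (by positivity)
    refine mul_le_mul_of_nonneg_left (Finset.sum_le_sum fun f _ => ?_) hz.le
    refine mul_le_mul_of_nonneg_left (Finset.sum_le_sum fun s _ => ?_) hz.le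
    exact mul_le_mul_of_nonneg_left (h1 f s) hz.le

theorem bump_le' (Y : Sys S (Zk d)) (n n' : ℕ) :
    (Y.E n fun u => Y.E n' fun v => Y.sv (u ++ v) * ∑ i ∈ range n, ∑ f : S, ind (Bp Y u v i f)) ≤
      2 * (Y.z ^ 2)⁻¹ * (Y.a (n + 2) * Y.a n') := by
  have hz := Y.z_pos
  rw [Y.E_comm]
  have key : ∀ v : List S, (Y.E n fun u => Y.sv (u ++ v) * ∑ i ∈ range n, ∑ f : S, ind (Bp Y u v i f)) ≤
      (Y.z ^ 2)⁻¹ * (2 * Y.a (n + 2)) * Y.sv v := by
    intro v
    have e1 : (Y.E n fun u => Y.sv (u ++ v) * ∑ i ∈ range n, ∑ f : S, ind (Bp Y u v i f)) =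
        ∑ i ∈ range n, Y.E n fun u => ∑ f : S, Y.sv (u ++ v) * ind (Bp Y u v i f) := by
      rw [← Y.E_fsum]
      refine Y.E_congr fun u _ => ?_
      rw [Finset.mul_sum]
      exact Finset.sum_congr rfl fun i _ => Finset.mul_sum _ _ _
    rw [e1]
    have e2 : ∀ i ∈ range n, (Y.E n fun u => ∑ f : S, Y.sv (u ++ v) * ind (Bp Y u v i f)) ≤
        (Y.z ^ 2)⁻¹ * Y.E (n + 2) fun w => Y.sv w * Y.sv v * ind (BumpA Y w v i) := by
      intro i hi
      obtain ⟨m, rfl⟩ : ∃ m, n = i + (1 + m) := ⟨n - i - 1, by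
        have := Finset.mem_range.mp hi
        omega⟩
      rw [show i + (1 + m) + 2 = i + (3 + m) by ring]
      exact Bump_step Y v i m
    refine (Finset.sum_le_sum e2).trans ?_
    rw [← Finset.mul_sum, ← Y.E_fsum, mul_assoc]
    refine mul_le_mul_of_nonneg_left ?_ (by positivity)
    calc (Y.E (n + 2) fun w => ∑ i ∈ range n, Y.sv w * Y.sv v * ind (BumpA Y w v i))
        ≤ Y.E (n + 2) fun w => Y.sv w * (Y.sv v * 2) := by
          refine Y.E_mono fun w hw => ?_
          rw [← Finset.mul_sum, mul_assoc]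
          refine mul_le_mul_of_nonneg_left ?_ (Y.sv_nonneg _)
          exact mul_le_mul_of_nonneg_left (Bump_count Y w v n (by omega)) (Y.sv_nonneg _)
      _ = Y.a (n + 2) * (Y.sv v * 2) := Y.E_mul_right _ _ _
      _ = 2 * Y.a (n + 2) * Y.sv v := by ring
  calc (Y.E n' fun v => Y.E n fun u => Y.sv (u ++ v) * ∑ i ∈ range n, ∑ f : S, ind (Bp Y u v i f))
      ≤ Y.E n' fun v => (Y.z ^ 2)⁻¹ * (2 * Y.a (n + 2)) * Y.sv v := Y.E_mono fun v _ => key v
    _ = (Y.z ^ 2)⁻¹ * (2 * Y.a (n + 2)) * Y.a n' := Y.E_mul_left _ _ _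
    _ = 2 * (Y.z ^ 2)⁻¹ * (Y.a (n + 2) * Y.a n') := by ring

end Pool.Agent.Ctc
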