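import Pool.Agent.Trp.Defs

/-!
# Swaps of the past arm
-/

set_option autoImplicit false

namespace Pool.Agent.Ctc

open Finset Filter Topology Pool.Agent.Bub4 Pool.Agent.SawM2 Pool.Agent.SawDiff Pool.Agent.Taw
open Pool.Agent.Trp
open Pool.Agent.SawNice (pa fu)

variable {S : Type} [Fintype S] {d : ℕ} {Λ K : ℝ} {ρ : List S → ℝ}

private theorem Swap_cons (Y : Sys S (Zk d)) (x a : List S) (l : ℕ) :
    pa Y (x ++ a) (x.length + l) = pa Y a l := by
  rw [Pool.Agent.SawNice.pa_append_right Y (Nat.le_add_right _ _), Nat.add_sub_cancel_left]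

/-- the places of the word after the swap -/
private theorem Swap_places (Y : Sys S (Zk d)) (x y : List S) (s t : S) :
    (∀ l, l ≠ x.length + 1 → pa Y (x ++ t :: s :: y) l = pa Y (x ++ s :: t :: y) l) ∧
    pa Y (x ++ t :: s :: y) (x.length + 1) = pa Y (x ++ s :: t :: y) x.length +
      pa Y (x ++ s :: t :: y) (x.length + 2) - pa Y (x ++ s :: t :: y) (x.length + 1) := by
  constructor
  · intro l hl
    rcases Nat.lt_or_ge x.length l with h | h
    · obtain ⟨j, rfl⟩ : ∃ j, l = x.length + (j + 2) := ⟨l - x.length - 2, by omega⟩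
      rw [Swap_cons, Swap_cons]
      simp only [pa, List.drop_succ_cons]
    · rw [Pool.Agent.SawNice.pa_append_left Y h, Pool.Agent.SawNice.pa_append_left Y h]
      simp only [Sys.sm_cons]
      abel
  · have e : pa Y (x ++ s :: t :: y) x.length = pa Y (s :: t :: y) 0 := by
      have := Swap_cons Y x (s :: t :: y) 0
      rwa [Nat.add_zero] at this
    rw [e, Swap_cons, Swap_cons, Swap_cons]
    simp only [pa, List.drop_succ_cons, List.drop_zero, Sys.sm_cons]
    abel

/-- the word after the swap meets `v` at the place `i + 1`, and nowhere else -/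
private def SwapA (Y : Sys S (Zk d)) (w v : List S) (i : ℕ) : Prop :=
  Fv Y v (pa Y w (i + 1)) ∧ ∀ l ≤ w.length, Fv Y v (pa Y w l) → l = i + 1

private theorem Swap_after (Y : Sys S (Zk d)) {x y v : List S} {s t : S}
    (h : Y.Saw ((x ++ s :: t :: y) ++ v)) (hB : Sp Y (x ++ s :: t :: y) v x.length) :
    Y.Saw (x ++ t :: s :: y) ∧ SwapA Y (x ++ t :: s :: y) v x.length := by
  obtain ⟨hA, hP⟩ := Swap_places Y x y s t
  obtain ⟨hi, hv⟩ := hB
  rw [← hP] at hv
  set u := x ++ s :: t :: y with hu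
  set u' := x ++ t :: s :: y with hu'
  have hlen : u'.length = u.length := by
    rw [hu, hu']
    simp only [List.length_append, List.length_cons]
  have hu1 : Y.Saw u := h.fac (List.prefix_append _ _).isInfix
  have hinj : ∀ i j, i ≤ u.length → j ≤ u.length → i ≠ j → pa Y u i ≠ pa Y u j :=
    fun i j hi hj hij e => hij (Pool.Agent.SawNice.saw_pa Y hu1 hi hj e)
  have hnew : ∀ l ≤ u.length, pa Y u l ≠ pa Y u' (x.length + 1) := by
    intro l hl e
    obtain ⟨j, hj1, hj2, he⟩ := hv
    exact Pool.Agent.SawNice.saw_arms Y h hl hj1 hj2 (e.trans he)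
  constructor
  · refine Pool.Agent.SawNice.saw_of_pa Y ?_
    intro a b hab hb
    rw [hlen] at hb
    by_cases ha : a = x.length + 1
    · rw [ha, hA b (by omega)]
      exact (hnew b hb).symm
    · rw [hA a ha]
      by_cases hb1 : b = x.length + 1
      · rw [hb1]
        exact hnew a (by omega)
      · rw [hA b hb1]
        exact hinj _ _ (by omega) (by omega) (by omega)
  · refine ⟨hv, ?_⟩
    intro l hl hF
    rw [hlen] at hl
    by_contra hcon
    rw [hA l hcon] at hF
    obtain ⟨j, hj1, hj2, he⟩ := hF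
    exact Pool.Agent.SawNice.saw_arms Y h hl hj1 hj2 he

private theorem Swap_count (Y : Sys S (Zk d)) (w v : List S) (n : ℕ) (hn : n ≤ w.length) :
    ∑ i ∈ range n, ind (SwapA Y w v i) ≤ 1 := by
  classical
  by_cases h : ∃ l ≤ w.length, Fv Y v (pa Y w l)
  · obtain ⟨l, hl, hF⟩ := h
    have h1 : ∀ i ∈ range n, ind (SwapA Y w v i) ≤ (if i = l - 1 then (1 : ℝ) else 0) := by
      intro i _
      by_cases hA : SwapA Y w v i
      · have e := hA.2 l hl hF
        rw [ind_of hA, if_pos (by omega : i = l - 1)]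
      · rw [ind_not hA]
        split_ifs <;> norm_num
    refine (Finset.sum_le_sum h1).trans ?_
    rw [Finset.sum_ite_eq']
    split_ifs <;> norm_num
  · push Not at h
    rw [Finset.sum_eq_zero]
    · norm_num
    · intro i hi
      have hi' := Finset.mem_range.mp hi
      exact ind_not fun hA => h (i + 1) (by omega) hA.1

private theorem Swap_pt (Y : Sys S (Zk d)) (x y v : List S) (s t : S) :
    Y.sv ((x ++ s :: t :: y) ++ v) * ind (Sp Y (x ++ s :: t :: y) v x.length) ≤
      Y.sv (x ++ t :: s :: y) * Y.sv v * ind (SwapA Y (x ++ t :: s :: y) v x.length) := by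
  have hr : 0 ≤ Y.sv (x ++ t :: s :: y) * Y.sv v * ind (SwapA Y (x ++ t :: s :: y) v x.length) :=
    mul_nonneg (mul_nonneg (Y.sv_nonneg _) (Y.sv_nonneg _)) (ind_nonneg _)
  by_cases h : Y.Saw ((x ++ s :: t :: y) ++ v)
  · by_cases hB : Sp Y (x ++ s :: t :: y) v x.length
    · obtain ⟨h1, h2⟩ := Swap_after Y h hB
      have hv : Y.Saw v := h.fac (List.suffix_append _ _).isInfix
      rw [Y.sv_of h, ind_of hB, Y.sv_of h1, Y.sv_of hv, ind_of h2]
      norm_num
    · rw [ind_not hB, mul_zero]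
      exact hr
  · rw [Y.sv_of_not h, zero_mul]
    exact hr

private theorem Swap_step (Y : Sys S (Zk d)) (v : List S) (i m : ℕ) :
    (Y.E (i + (2 + m)) fun u => Y.sv (u ++ v) * ind (Sp Y u v i)) ≤
      Y.E (i + (2 + m)) fun w => Y.sv w * Y.sv v * ind (SwapA Y w v i) := by
  have hz := Y.z_pos
  rw [Y.E_add i (2 + m), Y.E_add i (2 + m)]
  refine Y.E_mono fun x hx => ?_
  subst hx
  rw [Y.E_add 2 m, Y.E_add 2 m]
  have e2 : ∀ F : List S → ℝ, Y.E 2 F = Y.z * ∑ s, Y.z * ∑ t, F [s, t] := fun F => rfl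
  rw [e2, e2]
  refine mul_le_mul_of_nonneg_left ?_ hz.le
  rw [← Finset.mul_sum, ← Finset.mul_sum]
  refine mul_le_mul_of_nonneg_left ?_ hz.le
  rw [Finset.sum_comm]
  refine Finset.sum_le_sum fun t _ => Finset.sum_le_sum fun s _ => ?_
  exact Y.E_mono fun y _ => Swap_pt Y x y v s t

theorem swap_le' (Y : Sys S (Zk d)) (n n' : ℕ) :
    (Y.E n fun u => Y.E n' fun v => Y.sv (u ++ v) * ∑ i ∈ range n, ind (Sp Y u v i)) ≤ Y.a n * Y.a n' := by
  have hz := Y.z_pos
  rw [Y.E_comm]
  have key : ∀ v : List S, (Y.E n fun u => Y.sv (u ++ v) * ∑ i ∈ range n, ind (Sp Y u v i)) ≤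
      Y.a n * Y.sv v := by
    intro v
    have e1 : (Y.E n fun u => Y.sv (u ++ v) * ∑ i ∈ range n, ind (Sp Y u v i)) =
        ∑ i ∈ range n, Y.E n fun u => Y.sv (u ++ v) * ind (Sp Y u v i) := by
      rw [← Y.E_fsum]
      exact Y.E_congr fun u _ => Finset.mul_sum _ _ _
    rw [e1]
    have e2 : ∀ i ∈ range n, (Y.E n fun u => Y.sv (u ++ v) * ind (Sp Y u v i)) ≤
        Y.E n fun w => Y.sv w * Y.sv v * ind (SwapA Y w v i) := by
      intro i hi
      have hi' := Finset.mem_range.mp hi
      rcases Nat.lt_or_ge n (i + 2) with h | h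
      · refine Y.E_mono fun u hu => ?_
        have : ¬ Sp Y u v i := fun hS => by
          have := hS.1
          omega
        rw [ind_not this, mul_zero]
        exact mul_nonneg (mul_nonneg (Y.sv_nonneg _) (Y.sv_nonneg _)) (ind_nonneg _)
      · obtain ⟨m, rfl⟩ : ∃ m, n = i + (2 + m) := ⟨n - i - 2, by omega⟩
        exact Swap_step Y v i m
    refine (Finset.sum_le_sum e2).trans ?_
    rw [← Y.E_fsum]
    calc (Y.E n fun w => ∑ i ∈ range n, Y.sv w * Y.sv v * ind (SwapA Y w v i))
        ≤ Y.E n fun w => Y.sv w * Y.sv v := by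
          refine Y.E_mono fun w hw => ?_
          rw [← Finset.mul_sum]
          have h1 := Swap_count Y w v n (by omega)
          have h2 := mul_le_mul_of_nonneg_left h1 (mul_nonneg (Y.sv_nonneg w) (Y.sv_nonneg v))
          rwa [mul_one] at h2
      _ = Y.a n * Y.sv v := Y.E_mul_right _ _ _
  calc (Y.E n' fun v => Y.E n fun u => Y.sv (u ++ v) * ∑ i ∈ range n, ind (Sp Y u v i))
      ≤ Y.E n' fun v => Y.a n * Y.sv v := Y.E_mono fun v _ => key v
    _ = Y.a n * Y.a n' := Y.E_mul_left _ _ _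

end Pool.Agent.Ctc
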