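import Pool.Agent.Trp.Defs
import Pool.Agent.Ctc.Bump
import Pool.Agent.Ctc.Swap

/-!
# The number of flips has bounded expectation
-/

set_option autoImplicit false

namespace Pool.Agent.Ctc

open Finset Filter Topology Pool.Agent.Bub4 Pool.Agent.SawM2 Pool.Agent.SawDiff Pool.Agent.Taw
open Pool.Agent.Trp
open Pool.Agent.SawNice (pa fu)

variable {S : Type} [Fintype S] {d : ℕ} {Λ K : ℝ} {ρ : List S → ℝ}

private theorem Flips_bar (Y : Sys S (Zk d)) (n : ℕ) (F : List S → ℝ) : Y.E n (fun w => F (bar Y w)) = Y.E n F := by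
  unfold bar
  rw [Y.E_neg n (fun w => F w.reverse), Y.E_reverse]

theorem flips_le' (Y : Sys S (Zk d)) (n n' : ℕ) :
    (Y.E n fun u => Y.E n' fun v => Y.sv (u ++ v) * (Ph Y u v + Ph Y (bar Y v) (bar Y u))) ≤
      (4 * (Y.z ^ 2)⁻¹ * Y.a 2 + 2) * (Y.a n * Y.a n') := by
  have hz := Y.z_pos
  have h1 : ∀ n n', (Y.E n fun u => Y.E n' fun v => Y.sv (u ++ v) * Ph Y u v) ≤
      (2 * (Y.z ^ 2)⁻¹ * Y.a 2 + 1) * (Y.a n * Y.a n') := by
    intro n n'
    have h0 : 2 * (Y.z ^ 2)⁻¹ * (Y.a (n + 2) * Y.a n') + Y.a n * Y.a n' ≤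
        (2 * (Y.z ^ 2)⁻¹ * Y.a 2 + 1) * (Y.a n * Y.a n') := by
      have h1 := mul_le_mul_of_nonneg_right (Y.a_add_le n 2) (Y.a_nonneg n')
      have h2 : (0 : ℝ) ≤ 2 * (Y.z ^ 2)⁻¹ := by positivity
      have h3 := mul_le_mul_of_nonneg_left h1 h2
      nlinarith
    refine le_trans (le_trans (le_of_eq ?_) (add_le_add (bump_le' Y n n') (swap_le' Y n n'))) h0
    rw [← Y.E_fadd]
    refine Y.E_congr fun u hu => ?_
    rw [← Y.E_fadd]
    refine Y.E_congr fun v _ => ?_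
    unfold Ph
    rw [hu]
    ring
  have h2 : ∀ n n', (Y.E n fun u => Y.E n' fun v => Y.sv (u ++ v) * Ph Y (bar Y v) (bar Y u)) =
      Y.E n' fun v => Y.E n fun u => Y.sv (v ++ u) * Ph Y v u := by
    intro n n'
    rw [Y.E_comm, ← Flips_bar Y n' (fun v => Y.E n fun u => Y.sv (v ++ u) * Ph Y v u)]
    refine Y.E_congr fun v _ => ?_
    rw [← Flips_bar Y n (fun u => Y.sv (bar Y v ++ u) * Ph Y (bar Y v) u)]
    refine Y.E_congr fun u _ => ?_
    have h3 : bar Y v ++ bar Y u = bar Y (u ++ v) := by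
      unfold bar
      rw [List.map_append, List.reverse_append]
    have h4 : Y.sv (bar Y (u ++ v)) = Y.sv (u ++ v) := by
      unfold bar
      rw [Y.sv_reverse, Y.sv_neg]
    rw [h3, h4]
  have h3 := add_le_add (h1 n n') ((h2 n n').le.trans (h1 n' n))
  refine le_trans (le_of_eq ?_) (h3.trans (le_of_eq (by ring)))
  rw [← Y.E_fadd]
  refine Y.E_congr fun u _ => ?_
  rw [← Y.E_fadd]
  exact Y.E_congr fun v _ => mul_add _ _ _

end Pool.Agent.Ctc
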